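import Pool.Agent.TetVol.Defs

/-!
# Volumes of tetrahedra with integer edges
-/

set_option autoImplicit false

namespace Pool.Agent.TetVol

/-- `144 V^2` as a polynomial in the squares of the edges `01, 02, 03, 12, 13, 23`. -/
def FF (A B C D E G : ℝ) : ℝ :=
  4 * A * B * C - C * (A + B - D) ^ 2 - B * (A + C - E) ^ 2 - A * (B + C - G) ^ 2 +
    (A + B - D) * (A + C - E) * (B + C - G)

theorem det_eq (A B C D E G : ℝ) :
    (!![0, 1, 1, 1, 1; 1, 0, A, B, C; 1, A, 0, D, E; 1, B, D, 0, G; 1, C, E, G, 0] :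
      Matrix (Fin 5) (Fin 5) ℝ).det = 2 * FF A B C D E G := by
  simp [Matrix.det_succ_row_zero, Fin.sum_univ_succ, FF, Fin.succAbove]
  ring

/-- Three vectors `(u,0,0)`, `(v,w,0)`, `(x,y,z)` with `u w z ≠ 0` are linearly independent. -/
theorem indep {u v w x y z : ℝ} (hu : u ≠ 0) (hw : w ≠ 0) (hz : z ≠ 0) :
    AffineIndependent ℝ (![!₂[0, 0, 0], !₂[u, 0, 0], !₂[v, w, 0], !₂[x, y, z]] :
      Fin 4 → EuclideanSpace ℝ (Fin 3)) := by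
  rw [affineIndependent_iff_of_fintype]
  intro f hf0 hf
  rw [Finset.weightedVSub_eq_linear_combination Finset.univ hf0] at hf
  simp only [Fin.sum_univ_four, Matrix.cons_val_zero, Matrix.cons_val_one, Matrix.cons_val] at hf hf0
  have e0 := congrFun (congrArg WithLp.ofLp hf) 0
  have e1 := congrFun (congrArg WithLp.ofLp hf) 1
  have e2 := congrFun (congrArg WithLp.ofLp hf) 2
  simp at e0 e1 e2
  have h3 : f 3 = 0 := e2.resolve_right hz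
  rw [h3] at e0 e1
  have h2 : f 2 = 0 := by
    have : f 2 * w = 0 := by linarith
    exact (mul_eq_zero.1 this).resolve_right hw
  rw [h2] at e0
  have h1 : f 1 = 0 := by
    have : f 1 * u = 0 := by linarith
    exact (mul_eq_zero.1 this).resolve_right hu
  have h0 : f 0 = 0 := by
    rw [h1, h2, h3] at hf0
    linarith
  intro i
  fin_cases i
  · exact h0
  · exact h1
  · exact h2
  · exact h3

/-- Existence of the points. -/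
theorem exists_pts {a b c d e g : ℝ} (ha : 0 < a) (hb : 0 ≤ b) (hc : 0 ≤ c) (hd : 0 ≤ d)
    (he : 0 ≤ e) (hg : 0 ≤ g)
    (h1 : 0 < 4 * a ^ 2 * b ^ 2 - (a ^ 2 + b ^ 2 - d ^ 2) ^ 2)
    (h2 : 0 < FF (a ^ 2) (b ^ 2) (c ^ 2) (d ^ 2) (e ^ 2) (g ^ 2)) :
    ∃ p : Fin 4 → EuclideanSpace ℝ (Fin 3), AffineIndependent ℝ p ∧
      dist (p 0) (p 1) = a ∧ dist (p 0) (p 2) = b ∧ dist (p 0) (p 3) = c ∧
      dist (p 1) (p 2) = d ∧ dist (p 1) (p 3) = e ∧ dist (p 2) (p 3) = g := by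
  obtain ⟨v, hv⟩ : ∃ v : ℝ, v = (a ^ 2 + b ^ 2 - d ^ 2) / (2 * a) := ⟨_, rfl⟩
  obtain ⟨x, hx⟩ : ∃ x : ℝ, x = (a ^ 2 + c ^ 2 - e ^ 2) / (2 * a) := ⟨_, rfl⟩
  have hv' : 2 * a * v = a ^ 2 + b ^ 2 - d ^ 2 := by rw [hv]; field_simp
  have hx' : 2 * a * x = a ^ 2 + c ^ 2 - e ^ 2 := by rw [hx]; field_simp
  have hw0 : 0 < b ^ 2 - v ^ 2 := by
    have : 0 < 4 * a ^ 2 * (b ^ 2 - v ^ 2) := by
      have e1 : 4 * a ^ 2 * (b ^ 2 - v ^ 2) = 4 * a ^ 2 * b ^ 2 - (2 * a * v) ^ 2 := by ring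
      rw [e1, hv']
      exact h1
    have h4 : 0 < 4 * a ^ 2 := by positivity
    exact (mul_pos_iff_of_pos_left h4).1 this
  obtain ⟨w, hw, hw2⟩ : ∃ w : ℝ, 0 < w ∧ w ^ 2 = b ^ 2 - v ^ 2 :=
    ⟨√(b ^ 2 - v ^ 2), Real.sqrt_pos.2 hw0, Real.sq_sqrt hw0.le⟩
  obtain ⟨y, hy⟩ : ∃ y : ℝ, w * y = (b ^ 2 + c ^ 2 - g ^ 2) / 2 - v * x :=
    ⟨((b ^ 2 + c ^ 2 - g ^ 2) / 2 - v * x) / w, by field_simp⟩
  have key : 4 * a ^ 2 * w ^ 2 * (c ^ 2 - x ^ 2 - y ^ 2) =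
      FF (a ^ 2) (b ^ 2) (c ^ 2) (d ^ 2) (e ^ 2) (g ^ 2) := by
    have e1 : 4 * a ^ 2 * w ^ 2 * (c ^ 2 - x ^ 2 - y ^ 2) =
        4 * a ^ 2 * c ^ 2 * w ^ 2 - w ^ 2 * (2 * a * x) ^ 2 - 4 * a ^ 2 * (w * y) ^ 2 := by ring
    rw [e1, hy, hw2]
    have e2 : a ^ 2 + b ^ 2 - d ^ 2 = 2 * a * v := hv'.symm
    have e3 : a ^ 2 + c ^ 2 - e ^ 2 = 2 * a * x := hx'.symm
    unfold FF
    rw [e2, e3]
    ring
  have hz0 : 0 < c ^ 2 - x ^ 2 - y ^ 2 := by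
    have h4 : 0 < 4 * a ^ 2 * w ^ 2 := by positivity
    rw [← key] at h2
    exact (mul_pos_iff_of_pos_left h4).1 h2
  obtain ⟨z, hz, hz2⟩ : ∃ z : ℝ, 0 < z ∧ z ^ 2 = c ^ 2 - x ^ 2 - y ^ 2 :=
    ⟨√(c ^ 2 - x ^ 2 - y ^ 2), Real.sqrt_pos.2 hz0, Real.sq_sqrt hz0.le⟩
  have hdist : ∀ (r s t r' s' t' k : ℝ), 0 ≤ k → (r - r') ^ 2 + (s - s') ^ 2 + (t - t') ^ 2 = k ^ 2 →
      dist (!₂[r, s, t] : EuclideanSpace ℝ (Fin 3)) !₂[r', s', t'] = k := by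
    intro r s t r' s' t' k hk h
    rw [EuclideanSpace.dist_eq, Fin.sum_univ_three]
    simp only [Real.dist_eq, sq_abs, Matrix.cons_val_zero, Matrix.cons_val_one, Matrix.cons_val_two,
      Matrix.head_cons, Matrix.tail_cons]
    rw [h, Real.sqrt_sq hk]
  refine ⟨_, indep (v := v) (x := x) (y := y) ha.ne' hw.ne' hz.ne', ?_, ?_, ?_, ?_, ?_, ?_⟩
  · exact hdist 0 0 0 a 0 0 a ha.le (by ring)
  · exact hdist 0 0 0 v w 0 b hb (by linear_combination hw2)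
  · exact hdist 0 0 0 x y z c hc (by linear_combination hz2)
  · exact hdist a 0 0 v w 0 d hd (by linear_combination hw2 - hv')
  · exact hdist a 0 0 x y z e he (by linear_combination hz2 - hx')
  · exact hdist v w 0 x y z g hg (by linear_combination hw2 + hz2 - 2 * hy)

/-- `V` is the volume of a tetrahedron with the integer edges `a = 01`, `b = 02`, `c = 03`, `d = 12`, `e = 13`,
`g = 23` (numerical form). -/
structure Edges (V a b c d e g : ℤ) : Prop where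
  V0 : 0 < V
  a0 : 0 < a
  b0 : 0 ≤ b
  c0 : 0 ≤ c
  d0 : 0 ≤ d
  e0 : 0 ≤ e
  g0 : 0 ≤ g
  base : 0 < 4 * a ^ 2 * b ^ 2 - (a ^ 2 + b ^ 2 - d ^ 2) ^ 2
  vol : 4 * a ^ 2 * b ^ 2 * c ^ 2 - c ^ 2 * (a ^ 2 + b ^ 2 - d ^ 2) ^ 2 -
    b ^ 2 * (a ^ 2 + c ^ 2 - e ^ 2) ^ 2 - a ^ 2 * (b ^ 2 + c ^ 2 - g ^ 2) ^ 2 +
    (a ^ 2 + b ^ 2 - d ^ 2) * (a ^ 2 + c ^ 2 - e ^ 2) * (b ^ 2 + c ^ 2 - g ^ 2) = 144 * V ^ 2

theorem Edges.scale {V a b c d e g : ℤ} (h : Edges V a b c d e g) {s : ℤ} (hs : 0 < s) :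
    Edges (V * s ^ 3) (s * a) (s * b) (s * c) (s * d) (s * e) (s * g) := by
  refine ⟨mul_pos h.V0 (pow_pos hs 3), mul_pos hs h.a0, mul_nonneg hs.le h.b0,
    mul_nonneg hs.le h.c0, mul_nonneg hs.le h.d0, mul_nonneg hs.le h.e0, mul_nonneg hs.le h.g0,
    ?_, ?_⟩
  · have h4 : 0 < s ^ 4 := pow_pos hs 4
    have h5 := mul_pos h4 h.base
    have e1 : 4 * (s * a) ^ 2 * (s * b) ^ 2 - ((s * a) ^ 2 + (s * b) ^ 2 - (s * d) ^ 2) ^ 2 =
        s ^ 4 * (4 * a ^ 2 * b ^ 2 - (a ^ 2 + b ^ 2 - d ^ 2) ^ 2) := by ring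
    rw [e1]
    exact h5
  · linear_combination s ^ 6 * h.vol

theorem CM_det (p : Fin 4 → EuclideanSpace ℝ (Fin 3)) :
    (CM p).det = 2 * FF (dist (p 0) (p 1) ^ 2) (dist (p 0) (p 2) ^ 2) (dist (p 0) (p 3) ^ 2)
      (dist (p 1) (p 2) ^ 2) (dist (p 1) (p 3) ^ 2) (dist (p 2) (p 3) ^ 2) := by
  rw [← det_eq]
  congr 1
  have s01 := dist_comm (p 1) (p 0)
  have s02 := dist_comm (p 2) (p 0)
  have s03 := dist_comm (p 3) (p 0)
  have s12 := dist_comm (p 2) (p 1)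
  have s13 := dist_comm (p 3) (p 1)
  have s23 := dist_comm (p 3) (p 2)
  ext i j
  refine Fin.cases ?_ (fun i => ?_) i <;> refine Fin.cases ?_ (fun j => ?_) j
  · rfl
  · fin_cases j <;> rfl
  · fin_cases i <;> rfl
  · have e1 : CM p i.succ j.succ = dist (p i) (p j) ^ 2 := rfl
    rw [e1]
    fin_cases i <;> fin_cases j <;> simp [s01, s02, s03, s12, s13, s23]

theorem Edges.exists {V : ℕ} {a b c d e g : ℤ} (h : Edges V a b c d e g) :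
    ∃ p : Fin 4 → EuclideanSpace ℝ (Fin 3), IsTet p V ∧
      dist (p 0) (p 1) = a ∧ dist (p 0) (p 2) = b ∧ dist (p 0) (p 3) = c ∧
      dist (p 1) (p 2) = d ∧ dist (p 1) (p 3) = e ∧ dist (p 2) (p 3) = g := by
  have hb : (0 : ℝ) < 4 * (a : ℝ) ^ 2 * (b : ℝ) ^ 2 - ((a : ℝ) ^ 2 + (b : ℝ) ^ 2 - (d : ℝ) ^ 2) ^ 2 := by
    exact_mod_cast h.base
  have hv : FF ((a : ℝ) ^ 2) ((b : ℝ) ^ 2) ((c : ℝ) ^ 2) ((d : ℝ) ^ 2) ((e : ℝ) ^ 2)
      ((g : ℝ) ^ 2) = 144 * (V : ℝ) ^ 2 := by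
    unfold FF
    exact_mod_cast h.vol
  have hV : (0 : ℝ) < (V : ℝ) := by exact_mod_cast h.V0
  obtain ⟨p, hp, h01, h02, h03, h12, h13, h23⟩ := exists_pts (a := a) (b := b) (c := c) (d := d)
    (e := e) (g := g) (by exact_mod_cast h.a0) (by exact_mod_cast h.b0) (by exact_mod_cast h.c0)
    (by exact_mod_cast h.d0) (by exact_mod_cast h.e0) (by exact_mod_cast h.g0) hb
    (by rw [hv]; positivity)
  have hnat : ∀ n : ℤ, 0 ≤ n → ∃ m : ℕ, (n : ℝ) = m := fun n hn =>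
    ⟨n.toNat, by exact_mod_cast (Int.toNat_of_nonneg hn).symm⟩
  refine ⟨p, ⟨hp, ?_, ?_⟩, h01, h02, h03, h12, h13, h23⟩
  · have key : ∀ i j : Fin 4, i < j → ∃ n : ℕ, dist (p i) (p j) = n := by
      intro i j hij
      fin_cases i <;> fin_cases j <;> first | exact absurd hij (by decide) | skip
      · obtain ⟨m, hm⟩ := hnat a h.a0.le
        exact ⟨m, h01.trans hm⟩
      · obtain ⟨m, hm⟩ := hnat b h.b0
        exact ⟨m, h02.trans hm⟩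
      · obtain ⟨m, hm⟩ := hnat c h.c0
        exact ⟨m, h03.trans hm⟩
      · obtain ⟨m, hm⟩ := hnat d h.d0
        exact ⟨m, h12.trans hm⟩
      · obtain ⟨m, hm⟩ := hnat e h.e0
        exact ⟨m, h13.trans hm⟩
      · obtain ⟨m, hm⟩ := hnat g h.g0
        exact ⟨m, h23.trans hm⟩
    intro i j
    rcases lt_trichotomy i j with hij | hij | hij
    · exact key i j hij
    · exact ⟨0, by rw [hij, dist_self, Nat.cast_zero]⟩
    · rw [dist_comm]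
      exact key j i hij
  · rw [CM_det, h01, h02, h03, h12, h13, h23, hv]
    ring

theorem Edges.isVol {V : ℕ} {a b c d e g : ℤ} (h : Edges V a b c d e g) : IsVol V := by
  obtain ⟨p, hp, -⟩ := h.exists
  exact ⟨p, hp⟩

/-- The base triangle `8, 12, 16`: all multiples of `60`. -/
theorem fam1 {t : ℤ} (ht : 0 < t) :
    Edges (60 * t) 16 12 (2 * t ^ 2 + 8) 8 (2 * t ^ 2 + 12) (2 * t ^ 2 + 5) :=
  ⟨by positivity, by norm_num, by norm_num, by positivity, by norm_num, by positivity,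
    by positivity, by norm_num, by ring⟩

end Pool.Agent.TetVol
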