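import Pool.Agent.TetVol.Base

set_option autoImplicit false

namespace Pool.Agent.TetVol

/-- The base triangle `6, 14, 16`: `V = 12 (10 t + 1)`. -/
theorem fam2 {t : ℤ} (ht : 0 ≤ t) :
    Edges (12 * (10 * t + 1)) 6 14 (10 * t ^ 2 + 2 * t + 2) 16 (10 * t ^ 2 + 2 * t + 5)
      (10 * t ^ 2 + 2 * t + 13) :=
  ⟨by positivity, by norm_num, by norm_num, by positivity, by norm_num, by positivity,
    by positivity, by norm_num, by ring⟩

/-- The base triangle `6, 14, 16`: `V = 12 (10 t - 1)`. -/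
theorem fam2' {t : ℤ} (ht : 0 < t) :
    Edges (12 * (10 * t - 1)) 6 14 (10 * t ^ 2 - 2 * t + 2) 16 (10 * t ^ 2 - 2 * t + 5)
      (10 * t ^ 2 - 2 * t + 13) :=
  ⟨by linarith, by norm_num, by norm_num, by nlinarith, by norm_num, by nlinarith,
    by nlinarith, by norm_num, by ring⟩

/-- The base triangle `13, 13, 24`: `V = 48 m` for `5 ∣ m ^ 2 + 36`. -/
theorem fam3 {m n : ℤ} (hm : 0 < m) (h : 5 * n = m ^ 2 + 36) :
    Edges (48 * m) 13 13 n 24 (n + 5) (n + 5) := by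
  have hn : 0 < n := by nlinarith
  refine ⟨by positivity, by norm_num, by norm_num, hn.le, by norm_num, by positivity,
    by positivity, by norm_num, ?_⟩
  linear_combination (331776 : ℤ) * h

theorem main_int {k : ℤ} (hk : 0 < k)
    (h : 20 ∣ k ∨ k % 40 = 4 ∨ k % 40 = 36 ∨ k % 80 = 32 ∨ k % 80 = 48 ∨ 128 ∣ k) :
    ∃ a b c d e g : ℤ, Edges (3 * k) a b c d e g := by
  rcases h with h | h | h | h | h | h
  · obtain ⟨t, rfl⟩ := h
    have := fam1 (t := t) (by omega)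
    rw [show 3 * (20 * t) = 60 * t by ring]
    exact ⟨_, _, _, _, _, _, this⟩
  · obtain ⟨t, rfl⟩ : ∃ t, k = 40 * t + 4 := ⟨k / 40, by omega⟩
    have := fam2 (t := t) (by omega)
    rw [show 3 * (40 * t + 4) = 12 * (10 * t + 1) by ring]
    exact ⟨_, _, _, _, _, _, this⟩
  · obtain ⟨t, rfl⟩ : ∃ t, k = 40 * t - 4 := ⟨k / 40 + 1, by omega⟩
    have := fam2' (t := t) (by omega)
    rw [show 3 * (40 * t - 4) = 12 * (10 * t - 1) by ring]
    exact ⟨_, _, _, _, _, _, this⟩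
  · obtain ⟨u, rfl⟩ : ∃ u, k = 80 * u + 32 := ⟨k / 80, by omega⟩
    have := fam3 (m := 5 * u + 2) (n := 5 * u ^ 2 + 4 * u + 8) (by omega) (by ring)
    rw [show 3 * (80 * u + 32) = 48 * (5 * u + 2) by ring]
    exact ⟨_, _, _, _, _, _, this⟩
  · obtain ⟨u, rfl⟩ : ∃ u, k = 80 * u + 48 := ⟨k / 80, by omega⟩
    have := fam3 (m := 5 * u + 3) (n := 5 * u ^ 2 + 6 * u + 9) (by omega) (by ring)
    rw [show 3 * (80 * u + 48) = 48 * (5 * u + 3) by ring]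
    exact ⟨_, _, _, _, _, _, this⟩
  · obtain ⟨j, rfl⟩ := h
    have h5 : j % 5 = 0 ∨ j % 5 = 1 ∨ j % 5 = 2 ∨ j % 5 = 3 ∨ j % 5 = 4 := by omega
    rcases h5 with h5 | h5 | h5 | h5 | h5
    · obtain ⟨u, rfl⟩ : ∃ u, j = 5 * u := ⟨j / 5, by omega⟩
      have := fam1 (t := 32 * u) (by omega)
      rw [show 3 * (128 * (5 * u)) = 60 * (32 * u) by ring]
      exact ⟨_, _, _, _, _, _, this⟩
    · obtain ⟨u, rfl⟩ : ∃ u, j = 5 * u + 1 := ⟨j / 5, by omega⟩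
      have := fam3 (m := 40 * u + 8) (n := 320 * u ^ 2 + 128 * u + 20) (by omega) (by ring)
      rw [show 3 * (128 * (5 * u + 1)) = 48 * (40 * u + 8) by ring]
      exact ⟨_, _, _, _, _, _, this⟩
    · obtain ⟨u, rfl⟩ : ∃ u, j = 5 * u + 2 := ⟨j / 5, by omega⟩
      have := (fam3 (m := 5 * u + 2) (n := 5 * u ^ 2 + 4 * u + 8) (by omega) (by ring)).scale
        (s := 2) (by norm_num)
      rw [show 3 * (128 * (5 * u + 2)) = 48 * (5 * u + 2) * 2 ^ 3 by ring]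
      exact ⟨_, _, _, _, _, _, this⟩
    · obtain ⟨u, rfl⟩ : ∃ u, j = 5 * u + 3 := ⟨j / 5, by omega⟩
      have := (fam3 (m := 5 * u + 3) (n := 5 * u ^ 2 + 6 * u + 9) (by omega) (by ring)).scale
        (s := 2) (by norm_num)
      rw [show 3 * (128 * (5 * u + 3)) = 48 * (5 * u + 3) * 2 ^ 3 by ring]
      exact ⟨_, _, _, _, _, _, this⟩
    · obtain ⟨u, rfl⟩ : ∃ u, j = 5 * u + 4 := ⟨j / 5, by omega⟩
      have := fam3 (m := 40 * u + 32) (n := 320 * u ^ 2 + 512 * u + 212) (by omega) (by ring)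
      rw [show 3 * (128 * (5 * u + 4)) = 48 * (40 * u + 32) by ring]
      exact ⟨_, _, _, _, _, _, this⟩

theorem classes (k s : ℕ) (hk : 0 < k) (hs : 0 < s)
    (h : 20 ∣ k ∨ k % 40 = 4 ∨ k % 40 = 36 ∨ k % 80 = 32 ∨ k % 80 = 48 ∨ 128 ∣ k) :
    IsVol (3 * k * s ^ 3) := by
  obtain ⟨a, b, c, d, e, g, h1⟩ := main_int (k := (k : ℤ)) (by omega) (by omega)
  have h2 := h1.scale (s := (s : ℤ)) (by omega)
  have h3 : (3 * (k : ℤ)) * (s : ℤ) ^ 3 = ((3 * k * s ^ 3 : ℕ) : ℤ) := by push_cast; ring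
  rw [h3] at h2
  exact h2.isVol

end Pool.Agent.TetVol
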