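import Mathlib

/-!
# Tetrahedra with integer edges: definitions
-/

set_option autoImplicit false

namespace Pool.Agent.TetVol

/-- The Cayley-Menger matrix of four points: the `5 × 5` matrix of the squared distances, bordered by ones. -/
noncomputable def CM (p : Fin 4 → EuclideanSpace ℝ (Fin 3)) : Matrix (Fin 5) (Fin 5) ℝ :=
  Matrix.of (Fin.cons (Fin.cons 0 fun _ => 1) fun i => Fin.cons 1 fun j => dist (p i) (p j) ^ 2)

/-- The four points `p` are the vertices of a tetrahedron with integer edges and volume `V`: they are affinely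
independent, their mutual distances are integers, and `288 V^2 = det CM`. -/
def IsTet (p : Fin 4 → EuclideanSpace ℝ (Fin 3)) (V : ℕ) : Prop :=
  AffineIndependent ℝ p ∧ (∀ i j, ∃ n : ℕ, dist (p i) (p j) = n) ∧ 288 * (V : ℝ) ^ 2 = (CM p).det

/-- `V` is the volume of a tetrahedron with integer edges. -/
def IsVol (V : ℕ) : Prop := ∃ p : Fin 4 → EuclideanSpace ℝ (Fin 3), IsTet p V

/-- Two quadruples of points are the vertices of congruent tetrahedra: some bijection of the vertices preserves all
distances. -/
def Congr (p q : Fin 4 → EuclideanSpace ℝ (Fin 3)) : Prop :=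
  ∃ σ : Equiv.Perm (Fin 4), ∀ i j, dist (p i) (p j) = dist (q (σ i)) (q (σ j))

/-- The tetrahedron with the vertices `p` has a symmetry other than the identity: a permutation `σ ≠ 1` of the vertices
preserves all distances. -/
def Symm (p : Fin 4 → EuclideanSpace ℝ (Fin 3)) : Prop :=
  ∃ σ : Equiv.Perm (Fin 4), σ ≠ 1 ∧ ∀ i j, dist (p (σ i)) (p (σ j)) = dist (p i) (p j)

end Pool.Agent.TetVol
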