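import Pool.Agent.TetVol.Base

set_option autoImplicit false

namespace Pool.Agent.TetVol

theorem exists_fam {N s : ℕ} (hN : 0 < N) (hs : s ∣ N) :
    ∃ p : Fin 4 → EuclideanSpace ℝ (Fin 3), IsTet p (60 * N ^ 3) ∧
      (∀ i j, ∃ n : ℤ, dist (p i) (p j) = (s : ℝ) * n) ∧
      ∃ t : ℕ, dist (p 1) (p 2) = (s : ℝ) * 8 ∧ dist (p 2) (p 3) = (s : ℝ) * (2 * (t : ℝ) ^ 2 + 5) := by
  obtain ⟨r, rfl⟩ := hs
  have hs0 : 0 < s := Nat.pos_of_ne_zero fun h => by simp [h] at hN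
  have hr0 : 0 < r := Nat.pos_of_ne_zero fun h => by simp [h] at hN
  have h1 := (fam1 (t := ((r ^ 3 : ℕ) : ℤ)) (by positivity)).scale (s := (s : ℤ)) (by omega)
  have e1 : 60 * ((r ^ 3 : ℕ) : ℤ) * (s : ℤ) ^ 3 = ((60 * (s * r) ^ 3 : ℕ) : ℤ) := by
    push_cast
    ring
  rw [e1] at h1
  obtain ⟨p, hp, h01, h02, h03, h12, h13, h23⟩ := h1.exists
  refine ⟨p, hp, ?_, r ^ 3, ?_, ?_⟩
  · have key : ∀ i j : Fin 4, i < j → ∃ n : ℤ, dist (p i) (p j) = (s : ℝ) * n := by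
      intro i j hij
      fin_cases i <;> fin_cases j <;> first | exact absurd hij (by decide) | skip
      · exact ⟨_, h01.trans (Int.cast_mul _ _)⟩
      · exact ⟨_, h02.trans (Int.cast_mul _ _)⟩
      · exact ⟨_, h03.trans (Int.cast_mul _ _)⟩
      · exact ⟨_, h12.trans (Int.cast_mul _ _)⟩
      · exact ⟨_, h13.trans (Int.cast_mul _ _)⟩
      · exact ⟨_, h23.trans (Int.cast_mul _ _)⟩
    intro i j
    rcases lt_trichotomy i j with hij | hij | hij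
    · exact key i j hij
    · exact ⟨0, by rw [hij, dist_self, Int.cast_zero, mul_zero]⟩
    · rw [dist_comm]
      exact key j i hij
  · rw [h12]
    push_cast
    ring
  · rw [h23]
    push_cast
    ring

theorem dvd_of {s s' t : ℕ} {a b : ℤ} (h1 : (s : ℝ) * 8 = (s' : ℝ) * a)
    (h2 : (s : ℝ) * (2 * (t : ℝ) ^ 2 + 5) = (s' : ℝ) * b) : s' ∣ s := by
  have e1 : (s : ℤ) * 8 = (s' : ℤ) * a := by exact_mod_cast h1
  have e2 : (s : ℤ) * (2 * (t : ℤ) ^ 2 + 5) = (s' : ℤ) * b := by exact_mod_cast h2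
  have d1 : (s' : ℤ) ∣ (s : ℤ) * 8 := ⟨a, e1⟩
  have d2 : (s' : ℤ) ∣ (s : ℤ) * (2 * (t : ℤ) ^ 2 + 5) := ⟨b, e2⟩
  have hc : IsCoprime (8 : ℤ) (2 * (t : ℤ) ^ 2 + 5) := by
    have h3 : IsCoprime (2 : ℤ) (2 * (t : ℤ) ^ 2 + 5) := ⟨-((t : ℤ) ^ 2 + 2), 1, by ring⟩
    have h4 := h3.pow_left (m := 3)
    norm_num at h4
    exact h4
  obtain ⟨u, v, huv⟩ := hc
  have h5 : (s : ℤ) = u * ((s : ℤ) * 8) + v * ((s : ℤ) * (2 * (t : ℤ) ^ 2 + 5)) := by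
    linear_combination (-(s : ℤ)) * huv
  have h6 : (s' : ℤ) ∣ (s : ℤ) := by
    rw [h5]
    exact dvd_add (d1.mul_left u) (d2.mul_left v)
  exact_mod_cast h6

theorem mult (N : ℕ) (hN : 0 < N) : ∃ F : ℕ → Fin 4 → EuclideanSpace ℝ (Fin 3),
    (∀ s ∈ N.divisors, IsTet (F s) (60 * N ^ 3)) ∧
    ∀ s ∈ N.divisors, ∀ s' ∈ N.divisors, s ≠ s' → ¬ Congr (F s) (F s') := by
  classical
  have hex : ∀ s : ℕ, ∃ p : Fin 4 → EuclideanSpace ℝ (Fin 3), s ∣ N → (IsTet p (60 * N ^ 3) ∧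
      (∀ i j, ∃ n : ℤ, dist (p i) (p j) = (s : ℝ) * n) ∧
      ∃ t : ℕ, dist (p 1) (p 2) = (s : ℝ) * 8 ∧
        dist (p 2) (p 3) = (s : ℝ) * (2 * (t : ℝ) ^ 2 + 5)) := by
    intro s
    by_cases h : s ∣ N
    · obtain ⟨p, hp⟩ := exists_fam hN h
      exact ⟨p, fun _ => hp⟩
    · exact ⟨fun _ => 0, fun h' => absurd h' h⟩
  choose F hF using hex
  have key : ∀ s s' : ℕ, s ∣ N → s' ∣ N → Congr (F s) (F s') → s' ∣ s := by
    rintro s s' hs hs' ⟨σ, hσ⟩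
    obtain ⟨-, -, t, h1, h2⟩ := hF s hs
    obtain ⟨-, h3, -⟩ := hF s' hs'
    obtain ⟨a, ha⟩ := h3 (σ 1) (σ 2)
    obtain ⟨b, hb⟩ := h3 (σ 2) (σ 3)
    rw [← hσ, h1] at ha
    rw [← hσ, h2] at hb
    exact dvd_of ha hb
  refine ⟨F, fun s hs => (hF s (Nat.dvd_of_mem_divisors hs)).1, fun s hs s' hs' hne hc => hne ?_⟩
  have d := Nat.dvd_of_mem_divisors hs
  have d' := Nat.dvd_of_mem_divisors hs'
  have hc' : Congr (F s') (F s) := by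
    obtain ⟨σ, hσ⟩ := hc
    refine ⟨σ.symm, fun i j => ?_⟩
    rw [hσ, σ.apply_symm_apply, σ.apply_symm_apply]
  exact Nat.dvd_antisymm (key s' s d' d hc') (key s s' d d' hc)

end Pool.Agent.TetVol
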