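import Pool.Agent.TetVol.Base

set_option autoImplicit false

namespace Pool.Agent.TetVol

/-- The nine cases. -/
theorem cases_perm (D : Fin 4 → Fin 4 → ℕ) (hs : ∀ i j, D i j = D j i) (σ : Equiv.Perm (Fin 4))
    (hσ : σ ≠ 1) (h : ∀ i j, D (σ i) (σ j) = D i j) :
    ((D 0 2 = D 1 2 ∧ D 0 3 = D 1 3) ∨ (D 0 1 = D 1 2 ∧ D 0 3 = D 2 3) ∨
      (D 0 1 = D 1 3 ∧ D 0 2 = D 2 3) ∨ (D 0 1 = D 0 2 ∧ D 1 3 = D 2 3) ∨
      (D 0 1 = D 0 3 ∧ D 1 2 = D 2 3) ∨ (D 0 2 = D 0 3 ∧ D 1 2 = D 1 3)) ∨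
    ((D 0 2 = D 1 3 ∧ D 0 3 = D 1 2) ∨ (D 0 1 = D 2 3 ∧ D 0 3 = D 1 2) ∨
      (D 0 1 = D 2 3 ∧ D 0 2 = D 1 3)) := by
  have h01 := h 0 1
  have h02 := h 0 2
  have h03 := h 0 3
  have h12 := h 1 2
  have h13 := h 1 3
  have h23 := h 2 3
  have s10 := hs 1 0
  have s20 := hs 2 0
  have s30 := hs 3 0
  have s21 := hs 2 1
  have s31 := hs 3 1
  have s32 := hs 3 2
  have n01 : σ 0 ≠ σ 1 := fun e => absurd (σ.injective e) (by decide)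
  have n02 : σ 0 ≠ σ 2 := fun e => absurd (σ.injective e) (by decide)
  have n03 : σ 0 ≠ σ 3 := fun e => absurd (σ.injective e) (by decide)
  have n12 : σ 1 ≠ σ 2 := fun e => absurd (σ.injective e) (by decide)
  have n13 : σ 1 ≠ σ 3 := fun e => absurd (σ.injective e) (by decide)
  have n23 : σ 2 ≠ σ 3 := fun e => absurd (σ.injective e) (by decide)
  have hid : ¬ (σ 0 = 0 ∧ σ 1 = 1 ∧ σ 2 = 2 ∧ σ 3 = 3) := by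
    rintro ⟨e0, e1, e2, e3⟩
    apply hσ
    ext i
    fin_cases i
    · simp [e0]
    · simp [e1]
    · simp [e2]
    · simp [e3]
  generalize σ 0 = x0 at *
  generalize σ 1 = x1 at *
  generalize σ 2 = x2 at *
  generalize σ 3 = x3 at *
  clear h hs hσ σ
  fin_cases x0 <;> fin_cases x1 <;> first | exact absurd rfl n01 | skip
  all_goals fin_cases x2 <;> first | exact absurd rfl n02 | exact absurd rfl n12 | skip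
  all_goals fin_cases x3 <;>
    first
      | exact absurd rfl n03
      | exact absurd rfl n13
      | exact absurd rfl n23
      | exact absurd ⟨rfl, rfl, rfl, rfl⟩ hid
      | (simp only [Fin.zero_eta, Fin.mk_one, Fin.reduceFinMk] at h01 h02 h03 h12 h13 h23
         clear n01 n02 n03 n12 n13 n23 hid
         omega)

theorem mirror_bound {W x y b c : ℤ} (hW : 0 < W) (hx : 0 < x) (hy : 0 < y) (hb : 0 < b)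
    (hc : 0 < c)
    (h : x ^ 2 * (((b + c) ^ 2 - y ^ 2) * (y ^ 2 - (b - c) ^ 2) - x ^ 2 * y ^ 2) = W) :
    x ≤ W ^ 2 + 2 * W ∧ y ≤ W ^ 2 + 2 * W ∧ b ≤ W ^ 2 + 2 * W ∧ c ≤ W ^ 2 + 2 * W := by
  obtain ⟨N, hN⟩ : ∃ N : ℤ, N = ((b + c) ^ 2 - y ^ 2) * (y ^ 2 - (b - c) ^ 2) - x ^ 2 * y ^ 2 :=
    ⟨_, rfl⟩
  rw [← hN] at h
  have hx2 : 0 < x ^ 2 := by positivity
  have hN0 : 0 < N := by
    have : 0 < x ^ 2 * N := by rw [h]; exact hW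
    exact (mul_pos_iff_of_pos_left hx2).1 this
  have hxW : x ^ 2 ≤ W := by nlinarith
  have hNW : N ≤ W := by nlinarith
  have hx1 : x ≤ W := by nlinarith
  have hPQ : ((b + c) ^ 2 - y ^ 2) * (y ^ 2 - (b - c) ^ 2) = N + x ^ 2 * y ^ 2 := by
    rw [hN]; ring
  have hPQ0 : 0 < ((b + c) ^ 2 - y ^ 2) * (y ^ 2 - (b - c) ^ 2) := by
    rw [hPQ]; positivity
  have hbc : 0 < b * c := mul_pos hb hc
  have hPQ' : 0 < (b + c) ^ 2 - y ^ 2 ∧ 0 < y ^ 2 - (b - c) ^ 2 := by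
    rcases mul_pos_iff.1 hPQ0 with h1 | ⟨h1, h2⟩
    · exact h1
    · exfalso
      nlinarith
  obtain ⟨hP, hQ⟩ := hPQ'
  obtain ⟨T, hT0, hT2⟩ : ∃ T : ℤ, 0 ≤ T ∧ T ^ 2 = (b - c) ^ 2 := ⟨|b - c|, abs_nonneg _, sq_abs _⟩
  obtain ⟨σ, hσ⟩ : ∃ σ : ℤ, σ = b + c - y := ⟨_, rfl⟩
  obtain ⟨τ, hτ⟩ : ∃ τ : ℤ, τ = y - T := ⟨_, rfl⟩
  have hσ0 : 0 < σ := by
    rw [hσ]
    by_contra hcon
    push Not at hcon
    nlinarith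
  have hτ0 : 0 < τ := by
    rw [hτ]
    by_contra hcon
    push Not at hcon
    nlinarith
  have hτy : τ ≤ y := by rw [hτ]; linarith
  have hbc2 : b + c = y + σ := by rw [hσ]; ring
  have hTy : T = y - τ := by rw [hτ]; ring
  have e1 : σ * (2 * y + σ) * (τ * (2 * y - τ)) = N + x ^ 2 * y ^ 2 := by
    rw [← hPQ, ← hT2, hbc2, hTy]
    ring
  have hστ : 0 < σ * τ := mul_pos hσ0 hτ0
  have h2 : 2 * (σ * τ) * y ^ 2 ≤ N + x ^ 2 * y ^ 2 := by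
    rw [← e1]
    have h3 : 2 * σ * y ≤ σ * (2 * y + σ) := by nlinarith
    have h4 : τ * y ≤ τ * (2 * y - τ) := by nlinarith
    have h5 : 0 ≤ 2 * σ * y := by positivity
    have h6 : 0 ≤ τ * y := by positivity
    calc 2 * (σ * τ) * y ^ 2 = (2 * σ * y) * (τ * y) := by ring
      _ ≤ σ * (2 * y + σ) * (τ * (2 * y - τ)) := mul_le_mul h3 h4 h6 (h5.trans h3)
  have hy2 : 1 ≤ y ^ 2 := by nlinarith
  have h7 : σ * τ ≤ W := by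
    have h8 : 2 * (σ * τ) * y ^ 2 ≤ (2 * W) * y ^ 2 := by nlinarith
    have h9 : 2 * (σ * τ) ≤ 2 * W := le_of_mul_le_mul_right h8 (by positivity)
    linarith
  have h10 : y * ((4 * (σ * τ) - x ^ 2) * y + 2 * (σ * τ) * (σ - τ)) = (σ * τ) ^ 2 + N := by
    linear_combination e1
  have hC0 : 0 < (σ * τ) ^ 2 + N := by positivity
  have hyC : y ≤ (σ * τ) ^ 2 + N := Int.le_of_dvd hC0 ⟨_, h10.symm⟩
  have h11 : (σ * τ) ^ 2 ≤ W ^ 2 := by nlinarith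
  have hσW : σ ≤ W := by nlinarith
  have hW2 : 0 ≤ W ^ 2 := by positivity
  refine ⟨?_, ?_, ?_, ?_⟩ <;> linarith

theorem c2_bound {W x y b c : ℤ} (hW : 0 < W) (hx : 0 < x) (hy : 0 < y) (hb : 0 < b) (hc : 0 < c)
    (h3 : 0 ≤ 2 * b ^ 2 + 2 * c ^ 2 - x ^ 2 - y ^ 2)
    (h : (x * y - c ^ 2 + b ^ 2) * (x * y + c ^ 2 - b ^ 2) * (2 * b ^ 2 + 2 * c ^ 2 - x ^ 2 - y ^ 2) = W) :
    x ≤ W ^ 2 + 2 * W ∧ y ≤ W ^ 2 + 2 * W ∧ b ≤ W ^ 2 + 2 * W ∧ c ≤ W ^ 2 + 2 * W := by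
  obtain ⟨P, hP⟩ : ∃ P : ℤ, P = x * y - c ^ 2 + b ^ 2 := ⟨_, rfl⟩
  obtain ⟨Q, hQ⟩ : ∃ Q : ℤ, Q = x * y + c ^ 2 - b ^ 2 := ⟨_, rfl⟩
  obtain ⟨R, hR⟩ : ∃ R : ℤ, R = 2 * b ^ 2 + 2 * c ^ 2 - x ^ 2 - y ^ 2 := ⟨_, rfl⟩
  rw [← hP, ← hQ, ← hR] at h
  rw [← hR] at h3
  have hR0 : 0 < R := by
    rcases h3.eq_or_lt with h4 | h4
    · rw [← h4, mul_zero] at h
      omega
    · exact h4
  have hPQ0 : 0 < P * Q := by
    have : 0 < P * Q * R := by rw [h]; exact hW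
    exact (mul_pos_iff_of_pos_right hR0).1 this
  have hxy : 0 < x * y := mul_pos hx hy
  have hsum : P + Q = 2 * (x * y) := by rw [hP, hQ]; ring
  have hPQ' : 0 < P ∧ 0 < Q := by
    rcases mul_pos_iff.1 hPQ0 with h1 | ⟨h1, h2⟩
    · exact h1
    · exfalso
      linarith
  obtain ⟨hP0, hQ0⟩ := hPQ'
  have hPQR : P * Q ≤ W := by
    rw [← h]
    nlinarith
  have hPW : P ≤ W := by nlinarith
  have hQW : Q ≤ W := by nlinarith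
  have hRW : R ≤ W := by
    rw [← h]
    nlinarith
  have hxyW : x * y ≤ W := by linarith
  have hxW : x ≤ W := by nlinarith
  have hyW : y ≤ W := by nlinarith
  have hx2 : x ^ 2 ≤ W ^ 2 := by nlinarith
  have hy2 : y ^ 2 ≤ W ^ 2 := by nlinarith
  have hbc : 2 * b ^ 2 + 2 * c ^ 2 = R + x ^ 2 + y ^ 2 := by rw [hR]; ring
  have hb2 : b ≤ b ^ 2 := by nlinarith
  have hc2 : c ≤ c ^ 2 := by nlinarith
  have hb20 : 0 ≤ b ^ 2 := by positivity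
  have hc20 : 0 ≤ c ^ 2 := by positivity
  have hW2 : 0 ≤ W ^ 2 := by positivity
  refine ⟨?_, ?_, ?_, ?_⟩ <;> linarith

/-- The quadrilateral inequality. -/
theorem quad (A B C D : EuclideanSpace ℝ (Fin 3)) :
    0 ≤ dist A C ^ 2 + dist A D ^ 2 + dist B C ^ 2 + dist B D ^ 2 - dist A B ^ 2 - dist C D ^ 2 := by
  have hd : ∀ X Y : EuclideanSpace ℝ (Fin 3), dist X Y ^ 2 =
      (X 0 - Y 0) ^ 2 + (X 1 - Y 1) ^ 2 + (X 2 - Y 2) ^ 2 := by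
    intro X Y
    rw [EuclideanSpace.dist_eq, Real.sq_sqrt (Finset.sum_nonneg fun i _ => sq_nonneg _),
      Fin.sum_univ_three]
    simp only [Real.dist_eq, sq_abs]
  rw [hd, hd, hd, hd, hd, hd]
  have e : (A 0 - C 0) ^ 2 + (A 1 - C 1) ^ 2 + (A 2 - C 2) ^ 2 +
      ((A 0 - D 0) ^ 2 + (A 1 - D 1) ^ 2 + (A 2 - D 2) ^ 2) +
      ((B 0 - C 0) ^ 2 + (B 1 - C 1) ^ 2 + (B 2 - C 2) ^ 2) +
      ((B 0 - D 0) ^ 2 + (B 1 - D 1) ^ 2 + (B 2 - D 2) ^ 2) -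
      ((A 0 - B 0) ^ 2 + (A 1 - B 1) ^ 2 + (A 2 - B 2) ^ 2) -
      ((C 0 - D 0) ^ 2 + (C 1 - D 1) ^ 2 + (C 2 - D 2) ^ 2) =
      (A 0 + B 0 - C 0 - D 0) ^ 2 + (A 1 + B 1 - C 1 - D 1) ^ 2 +
        (A 2 + B 2 - C 2 - D 2) ^ 2 := by ring
  rw [e]
  positivity

theorem bound {p : Fin 4 → EuclideanSpace ℝ (Fin 3)} {V : ℕ} (hV : 0 < V) (hp : IsTet p V)
    (hs : Symm p) : ∃ D : Fin 4 → Fin 4 → ℕ, (∀ i j, dist (p i) (p j) = D i j) ∧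
      ∀ i j, (D i j : ℤ) ≤ (144 * (V : ℤ) ^ 2) ^ 2 + 2 * (144 * (V : ℤ) ^ 2) := by
  obtain ⟨haff, hint, hdet⟩ := hp
  choose D hD using hint
  obtain ⟨σ, hσ, hsym⟩ := hs
  have hDs : ∀ i j, D i j = D j i := by
    intro i j
    have h1 := hD i j
    rw [dist_comm, hD j i] at h1
    exact_mod_cast h1.symm
  have hDσ : ∀ i j, D (σ i) (σ j) = D i j := by
    intro i j
    have h1 := hsym i j
    rw [hD, hD] at h1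
    exact_mod_cast h1
  have hD0 : ∀ i j, i ≠ j → (0 : ℤ) < D i j := by
    intro i j hij
    have h1 : 0 < dist (p i) (p j) := dist_pos.2 (haff.injective.ne hij)
    rw [hD] at h1
    exact_mod_cast h1
  have hdd : ∀ i, D i i = 0 := by
    intro i
    have h1 := hD i i
    rw [dist_self] at h1
    exact_mod_cast h1.symm
  rw [CM_det, hD, hD, hD, hD, hD, hD] at hdet
  have hF : 4 * (D 0 1 : ℤ) ^ 2 * (D 0 2 : ℤ) ^ 2 * (D 0 3 : ℤ) ^ 2 -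
      (D 0 3 : ℤ) ^ 2 * ((D 0 1 : ℤ) ^ 2 + (D 0 2 : ℤ) ^ 2 - (D 1 2 : ℤ) ^ 2) ^ 2 -
      (D 0 2 : ℤ) ^ 2 * ((D 0 1 : ℤ) ^ 2 + (D 0 3 : ℤ) ^ 2 - (D 1 3 : ℤ) ^ 2) ^ 2 -
      (D 0 1 : ℤ) ^ 2 * ((D 0 2 : ℤ) ^ 2 + (D 0 3 : ℤ) ^ 2 - (D 2 3 : ℤ) ^ 2) ^ 2 +
      ((D 0 1 : ℤ) ^ 2 + (D 0 2 : ℤ) ^ 2 - (D 1 2 : ℤ) ^ 2) *
        ((D 0 1 : ℤ) ^ 2 + (D 0 3 : ℤ) ^ 2 - (D 1 3 : ℤ) ^ 2) *
        ((D 0 2 : ℤ) ^ 2 + (D 0 3 : ℤ) ^ 2 - (D 2 3 : ℤ) ^ 2) = 144 * (V : ℤ) ^ 2 := by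
    have h1 : FF ((D 0 1 : ℝ) ^ 2) ((D 0 2 : ℝ) ^ 2) ((D 0 3 : ℝ) ^ 2) ((D 1 2 : ℝ) ^ 2)
        ((D 1 3 : ℝ) ^ 2) ((D 2 3 : ℝ) ^ 2) = 144 * (V : ℝ) ^ 2 := by linarith
    unfold FF at h1
    exact_mod_cast h1
  have hW : (0 : ℤ) < 144 * (V : ℤ) ^ 2 := by
    have : (0 : ℤ) < V := by exact_mod_cast hV
    positivity
  have q1 : (0 : ℤ) ≤ (D 0 2 : ℤ) ^ 2 + (D 0 3 : ℤ) ^ 2 + (D 1 2 : ℤ) ^ 2 + (D 1 3 : ℤ) ^ 2 -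
      (D 0 1 : ℤ) ^ 2 - (D 2 3 : ℤ) ^ 2 := by
    have h1 := quad (p 0) (p 1) (p 2) (p 3)
    rw [hD, hD, hD, hD, hD, hD] at h1
    exact_mod_cast h1
  have q2 : (0 : ℤ) ≤ (D 0 1 : ℤ) ^ 2 + (D 0 3 : ℤ) ^ 2 + (D 1 2 : ℤ) ^ 2 + (D 2 3 : ℤ) ^ 2 -
      (D 0 2 : ℤ) ^ 2 - (D 1 3 : ℤ) ^ 2 := by
    have h1 := quad (p 0) (p 2) (p 1) (p 3)
    rw [hD, hD, hD, hD, hD, hD, hDs 2 1] at h1
    exact_mod_cast h1
  have q3 : (0 : ℤ) ≤ (D 0 1 : ℤ) ^ 2 + (D 0 2 : ℤ) ^ 2 + (D 1 3 : ℤ) ^ 2 + (D 2 3 : ℤ) ^ 2 -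
      (D 0 3 : ℤ) ^ 2 - (D 1 2 : ℤ) ^ 2 := by
    have h1 := quad (p 0) (p 3) (p 1) (p 2)
    rw [hD, hD, hD, hD, hD, hD, hDs 3 1, hDs 3 2] at h1
    exact_mod_cast h1
  obtain ⟨M, hM⟩ : ∃ M : ℤ, M = (144 * (V : ℤ) ^ 2) ^ 2 + 2 * (144 * (V : ℤ) ^ 2) := ⟨_, rfl⟩
  have p01 := hD0 0 1 (by decide)
  have p02 := hD0 0 2 (by decide)
  have p03 := hD0 0 3 (by decide)
  have p12 := hD0 1 2 (by decide)
  have p13 := hD0 1 3 (by decide)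
  have p23 := hD0 2 3 (by decide)
  have main : (D 0 1 : ℤ) ≤ M ∧ (D 0 2 : ℤ) ≤ M ∧ (D 0 3 : ℤ) ≤ M ∧ (D 1 2 : ℤ) ≤ M ∧
      (D 1 3 : ℤ) ≤ M ∧ (D 2 3 : ℤ) ≤ M := by
    rw [hM]
    rcases cases_perm D hDs σ hσ hDσ with (⟨e1, e2⟩ | ⟨e1, e2⟩ | ⟨e1, e2⟩ | ⟨e1, e2⟩ | ⟨e1, e2⟩ |
      ⟨e1, e2⟩) | (⟨e1, e2⟩ | ⟨e1, e2⟩ | ⟨e1, e2⟩)
    · rw [e1, e2] at hF ⊢
      obtain ⟨h1, h2, h3, h4⟩ := mirror_bound hW p01 p23 p12 p13 (by linear_combination hF)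
      exact ⟨h1, h3, h4, h3, h4, h2⟩
    · rw [e1, e2] at hF ⊢
      obtain ⟨h1, h2, h3, h4⟩ := mirror_bound hW p02 p13 p12 p23 (by linear_combination hF)
      exact ⟨h3, h1, h4, h3, h2, h4⟩
    · rw [e1, e2] at hF ⊢
      obtain ⟨h1, h2, h3, h4⟩ := mirror_bound hW p03 p12 p13 p23 (by linear_combination hF)
      exact ⟨h3, h4, h1, h2, h3, h4⟩
    · rw [e1, e2] at hF ⊢
      obtain ⟨h1, h2, h3, h4⟩ := mirror_bound hW p12 p03 p02 p23 (by linear_combination hF)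
      exact ⟨h3, h3, h2, h1, h4, h4⟩
    · rw [e1, e2] at hF ⊢
      obtain ⟨h1, h2, h3, h4⟩ := mirror_bound hW p13 p02 p03 p23 (by linear_combination hF)
      exact ⟨h3, h2, h3, h4, h1, h4⟩
    · rw [e1, e2] at hF ⊢
      obtain ⟨h1, h2, h3, h4⟩ := mirror_bound hW p23 p01 p03 p13 (by linear_combination hF)
      exact ⟨h2, h3, h3, h4, h4, h1⟩
    · rw [e1, e2] at hF q1 ⊢
      obtain ⟨h1, h2, h3, h4⟩ := c2_bound hW p01 p23 p13 p12 (by linarith)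
        (by linear_combination hF)
      exact ⟨h1, h3, h4, h4, h3, h2⟩
    · rw [e1, e2] at hF q2 ⊢
      obtain ⟨h1, h2, h3, h4⟩ := c2_bound hW p02 p13 p23 p12 (by linarith)
        (by linear_combination hF)
      exact ⟨h3, h1, h4, h4, h2, h3⟩
    · rw [e1, e2] at hF q3 ⊢
      obtain ⟨h1, h2, h3, h4⟩ := c2_bound hW p03 p12 p23 p13 (by linarith)
        (by linear_combination hF)
      exact ⟨h3, h4, h1, h2, h4, h3⟩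
  obtain ⟨m1, m2, m3, m4, m5, m6⟩ := main
  have hM0 : 0 ≤ M := by linarith
  refine ⟨D, hD, ?_⟩
  rw [← hM]
  intro i j
  fin_cases i <;> fin_cases j <;>
    simp only [Fin.zero_eta, Fin.mk_one, Fin.reduceFinMk, hdd, hDs 1 0, hDs 2 0, hDs 3 0, hDs 2 1,
      hDs 3 1, hDs 3 2, Nat.cast_zero] <;> assumption

theorem symm_finite (V : ℕ) (hV : 0 < V) : {d : Fin 4 → Fin 4 → ℝ |
    ∃ p : Fin 4 → EuclideanSpace ℝ (Fin 3), IsTet p V ∧ Symm p ∧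
      ∀ i j, d i j = dist (p i) (p j)}.Finite := by
  obtain ⟨M, hM⟩ : ∃ M : ℕ, (M : ℤ) = (144 * (V : ℤ) ^ 2) ^ 2 + 2 * (144 * (V : ℤ) ^ 2) :=
    ⟨(144 * V ^ 2) ^ 2 + 2 * (144 * V ^ 2), by push_cast; ring⟩
  have hfin : ((fun n : ℕ => (n : ℝ)) '' Set.Iic M).Finite := (Set.finite_Iic M).image _
  have h1 : {d : Fin 4 → Fin 4 → ℝ | ∀ i, d i ∈ {e : Fin 4 → ℝ |
      ∀ j, e j ∈ (fun n : ℕ => (n : ℝ)) '' Set.Iic M}}.Finite :=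
    Set.Finite.pi' fun _ => Set.Finite.pi' fun _ => hfin
  refine h1.subset ?_
  rintro d ⟨p, hp, hs, hd⟩ i j
  obtain ⟨D, hD, hb⟩ := bound hV hp hs
  refine ⟨D i j, ?_, ?_⟩
  · have h2 := hb i j
    rw [← hM] at h2
    exact_mod_cast h2
  · show ((D i j : ℕ) : ℝ) = d i j
    rw [hd, hD]

end Pool.Agent.TetVol
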